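import Pool.Agent.Lib.MP_c5d73d_lc.F.IfaceT

/-!
# BASIC: API of `ssub`, `infi`, `NU`, `TP`; the modules INT, PI, SPLIT
-/

universe u v w

open Cardinal Filter

open scoped symmDiff

namespace Pool.Agent.Lib.MP_c5d73d_lc.F.H80

open Pool.Agent.Lib.MP_100a6c_lc

variable {B : Type u} [CompleteBooleanAlgebra B]

/-! ## Eventually -/

/-- Boolean value of `f n` for all large `n`. -/
def evt (f : ℕ → B) : B := ⨆ N, ⨅ n, f (n + N)

theorem ssub_eq (a b : Rl B) : ssub a b = evt fun n => a n ⇨ b n := rfl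

theorem tl_mono (f : ℕ → B) {N M : ℕ} (h : N ≤ M) : ⨅ n, f (n + N) ≤ ⨅ n, f (n + M) := by
  refine le_iInf fun n => (iInf_le _ (n + (M - N))).trans (le_of_eq ?_)
  congr 1
  omega

theorem le_evt {c : B} {f : ℕ → B} (h : ∀ n, c ≤ f n) : c ≤ evt f :=
  le_iSup_of_le 0 (le_iInf fun n => h _)

theorem inf_evt_le {c : B} {f g : ℕ → B} (h : ∀ n, c ⊓ f n ≤ g n) : c ⊓ evt f ≤ evt g := by
  unfold evt
  rw [inf_iSup_eq]
  refine iSup_mono fun _ => le_iInf fun n => ?_
  exact (inf_le_inf_left _ (iInf_le _ n)).trans (h _)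

theorem evt_mono {f g : ℕ → B} (h : ∀ n, f n ≤ g n) : evt f ≤ evt g := by
  have := inf_evt_le (c := ⊤) (f := f) (g := g) fun n => inf_le_right.trans (h n)
  simpa using this

theorem evt_inf (f g : ℕ → B) : evt (fun n => f n ⊓ g n) = evt f ⊓ evt g := by
  refine le_antisymm (le_inf (evt_mono fun n => inf_le_left) (evt_mono fun n => inf_le_right)) ?_
  unfold evt
  rw [iSup_inf_eq]
  refine iSup_le fun N => ?_
  rw [inf_iSup_eq]
  refine iSup_le fun M => ?_
  refine le_iSup_of_le (max N M) ?_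
  rw [iInf_inf_eq]
  exact inf_le_inf (tl_mono f (le_max_left _ _)) (tl_mono g (le_max_right _ _))

theorem evt_top : evt (fun _ => (⊤ : B)) = ⊤ := top_le_iff.1 (le_evt fun _ => le_rfl)

theorem evt_of_ge {c : B} {f : ℕ → B} (N : ℕ) (h : ∀ n, N ≤ n → c ≤ f n) : c ≤ evt f :=
  le_iSup_of_le N (le_iInf fun n => h _ (Nat.le_add_left _ _))

theorem infi_eq_compl (a : Rl B) : infi a = (evt fun n => (a n)ᶜ)ᶜ := by
  unfold infi evt
  simp only [compl_iSup, compl_iInf, compl_compl]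

theorem compl_infi (a : Rl B) : (infi a)ᶜ = evt fun n => (a n)ᶜ := by
  rw [infi_eq_compl, compl_compl]

theorem ssub_bot (a : Rl B) : ssub a ⊥ = (infi a)ᶜ := by
  rw [compl_infi, ssub_eq]
  simp only [Pi.bot_apply, himp_bot]

theorem infi_eq (a : Rl B) : infi a = (ssub a ⊥)ᶜ := by rw [ssub_bot, compl_compl]

theorem infi_inf (a b : Rl B) : infi (a ⊓ b) = (ssub a bᶜ)ᶜ := by
  rw [infi_eq_compl, ssub_eq]
  congr 2
  funext n
  simp only [Pi.inf_apply, Pi.compl_apply, compl_inf, himp_eq, sup_comm]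

theorem compl_infi_inf (a b : Rl B) : (infi (a ⊓ b))ᶜ = ssub a bᶜ := by rw [infi_inf, compl_compl]

/-! ## ssub -/

theorem ssub_top_of_le {a b : Rl B} (h : a ≤ b) : ssub a b = ⊤ := by
  rw [ssub_eq]
  refine top_le_iff.1 (le_evt fun n => ?_)
  rw [le_himp_iff, top_inf_eq]
  exact h n

theorem ssub_refl (a : Rl B) : ssub a a = ⊤ := ssub_top_of_le le_rfl

/-- Everything about `ssub` follows from this and pointwise inequalities. -/
theorem ssub_combine {c : B} {a b a' b' a'' b'' : Rl B}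
    (h : ∀ n, c ⊓ (a n ⇨ b n) ⊓ (a' n ⇨ b' n) ⊓ a'' n ≤ b'' n) :
    c ⊓ ssub a b ⊓ ssub a' b' ≤ ssub a'' b'' := by
  rw [inf_assoc, ssub_eq, ssub_eq, ssub_eq, ← evt_inf]
  refine inf_evt_le fun n => ?_
  rw [← inf_assoc, le_himp_iff]
  exact h n

theorem ssub_combine1 {c : B} {a b a'' b'' : Rl B} (h : ∀ n, c ⊓ (a n ⇨ b n) ⊓ a'' n ≤ b'' n) :
    c ⊓ ssub a b ≤ ssub a'' b'' := by
  rw [ssub_eq, ssub_eq]
  refine inf_evt_le fun n => ?_
  rw [le_himp_iff]
  exact h n

theorem le_ssub {c : B} {a b : Rl B} (h : ∀ n, c ⊓ a n ≤ b n) : c ≤ ssub a b := by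
  rw [ssub_eq]
  exact le_evt fun n => by rw [le_himp_iff]; exact h n

theorem le_ssub_of_ge {c : B} {a b : Rl B} (N : ℕ) (h : ∀ n, N ≤ n → c ⊓ a n ≤ b n) :
    c ≤ ssub a b := by
  rw [ssub_eq]
  exact evt_of_ge N fun n hn => by rw [le_himp_iff]; exact h n hn

theorem ssub_trans (a b c : Rl B) : ssub a b ⊓ ssub b c ≤ ssub a c := by
  rw [ssub_eq a b, ssub_eq b c, ssub_eq a c, ← evt_inf]
  refine evt_mono (B := B) fun n => ?_
  rw [le_himp_iff]
  calc (a n ⇨ b n) ⊓ (b n ⇨ c n) ⊓ a n ≤ (b n ⇨ c n) ⊓ b n :=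
        le_inf (inf_le_left.trans inf_le_right)
          ((le_inf (inf_le_left.trans inf_le_left) inf_le_right).trans himp_inf_le)
    _ ≤ c n := himp_inf_le

theorem ssub_mono {a a' b b' : Rl B} (ha : a' ≤ a) (hb : b ≤ b') : ssub a b ≤ ssub a' b' :=
  evt_mono fun n => himp_le_himp (ha n) (hb n)

theorem ssub_inf (a b c : Rl B) : ssub a (b ⊓ c) = ssub a b ⊓ ssub a c := by
  rw [ssub_eq, ssub_eq, ssub_eq, ← evt_inf]
  congr 1
  funext n
  exact himp_inf_distrib _ _ _

theorem sup_ssub (a b c : Rl B) : ssub (a ⊔ b) c = ssub a c ⊓ ssub b c := by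
  rw [ssub_eq, ssub_eq, ssub_eq, ← evt_inf]
  congr 1
  funext n
  exact sup_himp_distrib _ _ _

theorem ssub_inf_inf (a b a' b' : Rl B) : ssub a b ⊓ ssub a' b' ≤ ssub (a ⊓ a') (b ⊓ b') := by
  rw [ssub_inf]
  exact le_inf (inf_le_left.trans (ssub_mono inf_le_left le_rfl))
    (inf_le_right.trans (ssub_mono inf_le_right le_rfl))

theorem ssub_compl (a b : Rl B) : ssub aᶜ bᶜ = ssub b a := by
  rw [ssub_eq, ssub_eq]
  congr 1
  funext n
  simp only [Pi.compl_apply, himp_eq, compl_compl, sup_comm]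

/-- `ssub (a ⊓ b) c = ssub a (bᶜ ⊔ c)`. -/
theorem ssub_inf_left (a b c : Rl B) : ssub (a ⊓ b) c = ssub a (bᶜ ⊔ c) := by
  rw [ssub_eq, ssub_eq]
  congr 1
  funext n
  simp only [Pi.inf_apply, Pi.sup_apply, Pi.compl_apply, himp_eq, compl_inf]
  rw [sup_comm (a n)ᶜ (b n)ᶜ]
  ac_rfl

/-- Equality of reals. -/
theorem eq_le_ssub (a b : Rl B) : (⨅ n, (a n ⇔ b n)) ≤ ssub a b := by
  refine le_ssub fun n => ?_
  have h1 : (⨅ n, (a n ⇔ b n)) ≤ a n ⇨ b n := (iInf_le _ n).trans inf_le_right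
  exact (inf_le_inf_right _ h1).trans himp_inf_le

theorem eq_symm (a b : Rl B) : (⨅ n, (a n ⇔ b n)) = ⨅ n, (b n ⇔ a n) := by
  simp only [bihimp_comm]

theorem eq_le_ssub' (a b : Rl B) : (⨅ n, (a n ⇔ b n)) ≤ ssub b a := by
  rw [eq_symm]; exact eq_le_ssub b a

/-! ## infi -/

theorem infi_mono {a b : Rl B} (h : a ≤ b) : infi a ≤ infi b :=
  iInf_mono fun _ => iSup_mono fun _ => h _

theorem infi_bot : infi (⊥ : Rl B) = ⊥ := by rw [infi_eq, ssub_refl, compl_top]

theorem infi_top [Nonempty B] : infi (⊤ : Rl B) = ⊤ := by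
  rw [infi_eq_compl]
  have : (evt fun n => ((⊤ : Rl B) n)ᶜ) = ⊥ := by
    unfold evt
    simp
  rw [this, compl_bot]

theorem ssub_inf_infi_le (a b : Rl B) : ssub a b ⊓ infi a ≤ infi b := by
  rw [infi_eq b, le_compl_iff_disjoint_right, disjoint_iff_inf_le]
  have h1 : ssub a b ⊓ ssub b ⊥ ≤ ssub a ⊥ := ssub_trans a b ⊥
  calc ssub a b ⊓ infi a ⊓ ssub b ⊥ ≤ infi a ⊓ ssub a ⊥ :=
        le_inf (inf_le_left.trans inf_le_right)
          ((le_inf (inf_le_left.trans inf_le_left) inf_le_right).trans h1)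
    _ ≤ ⊥ := by rw [ssub_bot, inf_compl_self]

theorem infi_sup (a b : Rl B) : infi (a ⊔ b) = infi a ⊔ infi b := by
  rw [infi_eq, sup_ssub, compl_inf, ← infi_eq, ← infi_eq]

/-- The constant subset of `ω`: everything at `c`, nothing elsewhere. -/
def cst (c : B) : Rl B := fun _ => c

omit [CompleteBooleanAlgebra B] in
@[simp] theorem cst_apply (c : B) (n : ℕ) : cst c n = c := rfl

theorem cst_top : cst (⊤ : B) = ⊤ := rfl
theorem cst_bot : cst (⊥ : B) = ⊥ := rfl
theorem cst_compl (c : B) : cst cᶜ = (cst c)ᶜ := rfl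

theorem infi_inf_cst (a : Rl B) (c : B) : infi (a ⊓ cst c) = infi a ⊓ c := by
  unfold infi
  rw [iInf_inf]
  refine iInf_congr fun N => ?_
  rw [iSup_inf_eq]
  rfl

theorem infi_cst (c : B) : infi (cst c) = c := by
  unfold infi
  simp [cst]

theorem inf_infi_le {c : B} {a b : Rl B} (h : ∀ n, c ⊓ a n ≤ b n) : c ⊓ infi a ≤ infi b :=
  (inf_le_inf_right _ (le_ssub h)).trans (ssub_inf_infi_le a b)

theorem infi_le_iSup (a : Rl B) (N : ℕ) : infi a ≤ ⨆ n, a (n + N) := iInf_le _ N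

/-! ## Finite unions and intersections -/

/-- `d 0 ⊓ ... ⊓ d m`. -/
def dI (d : ℕ → Rl B) : ℕ → Rl B
  | 0 => d 0
  | m + 1 => dI d m ⊓ d (m + 1)

theorem dI_le (d : ℕ → Rl B) {n m : ℕ} (h : n ≤ m) : dI d m ≤ d n := by
  induction m with
  | zero => obtain rfl : n = 0 := by omega
            exact le_rfl
  | succ m ih =>
    rcases Nat.lt_or_ge n (m + 1) with h' | h'
    · exact inf_le_left.trans (ih (by omega))
    · obtain rfl : n = m + 1 := by omega
      exact inf_le_right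

theorem le_ssub_dI {c : B} {a : Rl B} {d : ℕ → Rl B} {m : ℕ} (h : ∀ n ≤ m, c ≤ ssub a (d n)) :
    c ≤ ssub a (dI d m) := by
  induction m with
  | zero => exact h 0 le_rfl
  | succ m ih =>
    rw [dI, ssub_inf]
    exact le_inf (ih fun n hn => h n (by omega)) (h _ le_rfl)

/-- `c 0 ⊔ ... ⊔ c (m-1)`. -/
def cS (c : ℕ → Rl B) : ℕ → Rl B
  | 0 => ⊥
  | m + 1 => cS c m ⊔ c m

theorem le_cS (c : ℕ → Rl B) {n m : ℕ} (h : n < m) : c n ≤ cS c m := by
  induction m with
  | zero => omega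
  | succ m ih =>
    rcases Nat.lt_or_ge n m with h' | h'
    · exact (ih h').trans le_sup_left
    · obtain rfl : n = m := by omega
      exact le_sup_right

theorem cS_eq_iSup (c : ℕ → Rl B) (m : ℕ) : cS c m = ⨆ n : Fin m, c n := by
  refine le_antisymm ?_ (iSup_le fun n => le_cS c n.2)
  induction m with
  | zero => exact bot_le
  | succ m ih =>
    refine sup_le (ih.trans (iSup_le fun n => ?_)) ?_
    · exact le_iSup (fun n : Fin (m + 1) => c n) n.castSucc
    · exact le_iSup (fun n : Fin (m + 1) => c n) (Fin.last m)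

theorem le_cS_ssub {e : B} {c : ℕ → Rl B} {d : Rl B} {m : ℕ} (h : ∀ n < m, e ≤ ssub (c n) d) :
    e ≤ ssub (cS c m) d := by
  induction m with
  | zero => rw [cS, ssub_top_of_le bot_le]; exact le_top
  | succ m ih =>
    rw [cS, sup_ssub]
    exact le_inf (ih fun n hn => h n (by omega)) (h m (by omega))

/-! ## INT -/

/-- Interpolation at a condition. -/
theorem exists_int {Γ : B} (c d : ℕ → Rl B) (h : ∀ m n, Γ ≤ ssub (c m) (d n)) :
    ∃ e, (∀ m, Γ ≤ ssub (c m) e) ∧ ∀ n, Γ ≤ ssub e (d n) := by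
  refine ⟨⨆ m, c m ⊓ dI d m, fun m => ?_, fun n => ?_⟩
  · have h1 : Γ ≤ ssub (c m) (c m ⊓ dI d m) := by
      rw [ssub_inf, ssub_refl, top_inf_eq]
      exact le_ssub_dI fun n _ => h m n
    exact h1.trans (ssub_mono le_rfl (le_iSup (fun m => c m ⊓ dI d m) m))
  · have h1 : (⨆ m, c m ⊓ dI d m) ≤ cS c n ⊔ d n := by
      refine iSup_le fun m => ?_
      rcases Nat.lt_or_ge m n with h' | h'
      · exact inf_le_left.trans ((le_cS c h').trans le_sup_left)
      · exact inf_le_right.trans ((dI_le d h').trans le_sup_right)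
    refine le_trans ?_ (ssub_mono h1 le_rfl)
    rw [sup_ssub, ssub_refl, inf_top_eq]
    exact le_cS_ssub fun m _ => h m n

theorem int : IntStatement.{u} := fun _ _ c d h => by
  obtain ⟨e, h1, h2⟩ := exists_int (Γ := ⊤) c d fun m n => (h m n).ge
  exact ⟨e, fun m => top_le_iff.1 (h1 m), fun n => top_le_iff.1 (h2 n)⟩

/-! ## First elements -/

/-- `n` is the first index with `f n`. -/
def fst (f : ℕ → B) (n : ℕ) : B := f n ⊓ ⨅ j : Fin n, (f j)ᶜ

theorem fst_le (f : ℕ → B) (n : ℕ) : fst f n ≤ f n := inf_le_left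

theorem fst_disj (f : ℕ → B) {m n : ℕ} (h : m ≠ n) : fst f m ⊓ fst f n = ⊥ := by
  have key : ∀ m n, m < n → fst f m ⊓ fst f n = ⊥ := by
    intro m n hmn
    refine le_bot_iff.1 ?_
    have h1 : fst f n ≤ (f m)ᶜ := inf_le_right.trans (iInf_le _ (⟨m, hmn⟩ : Fin n))
    exact (inf_le_inf (fst_le f m) h1).trans (by rw [inf_compl_self])
  rcases Nat.lt_or_gt_of_ne h with h' | h'
  · exact key _ _ h'
  · rw [inf_comm]; exact key _ _ h'

theorem le_iSup_fst (f : ℕ → B) (n : ℕ) : f n ≤ ⨆ m, fst f m := by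
  induction n using Nat.strong_induction_on with
  | _ n ih =>
    have h1 : f n ≤ fst f n ⊔ ⨆ j : Fin n, f j := by
      have : (⨆ j : Fin n, f j) = (⨅ j : Fin n, (f j)ᶜ)ᶜ := by
        simp only [compl_iInf, compl_compl]
      rw [this, fst, sup_inf_right, sup_comm (⨅ j : Fin n, (f j)ᶜ), compl_sup_eq_top, inf_top_eq]
      exact le_sup_left
    exact h1.trans (sup_le (le_iSup _ n) (iSup_le fun j => ih j j.2))

theorem iSup_fst (f : ℕ → B) : ⨆ n, fst f n = ⨆ n, f n :=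
  le_antisymm (iSup_mono (fst_le f)) (iSup_le (le_iSup_fst f))

/-! ## PI -/

theorem exists_pi {Γ : B} (Y : ℕ → Rl B) (hY : ∀ n, Y (n + 1) ≤ Y n) (hi : ∀ n, Γ ≤ infi (Y n)) :
    ∃ Z ≤ Y 0, Γ ≤ infi Z ∧ ∀ n, Γ ≤ ssub Z (Y n) := by
  have hanti : ∀ n m, n ≤ m → Y m ≤ Y n := by
    intro n m h
    induction m, h using Nat.le_induction with
    | base => exact le_rfl
    | succ m _ ih => exact (hY m).trans ih
  let g : ℕ → ℕ → B := fun n => fst fun j => Y n (j + n + 1)
  let E : ℕ → Rl B := fun n k => if n < k then g n (k - n - 1) else ⊥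
  have hEY : ∀ n, E n ≤ Y n := by
    intro n k
    by_cases h : n < k
    · simp only [E, h, if_true]
      refine (fst_le _ _).trans (le_of_eq ?_)
      congr 1
      omega
    · simp only [E, h, if_false]; exact bot_le
  have hEfin : ∀ n, Γ ≤ ssub (E n) ⊥ := by
    intro n
    have h1 : Γ ≤ ⨆ j, g n j := by
      have h2 : (⨆ j, g n j) = ⨆ j, Y n (j + n + 1) := iSup_fst _
      rw [h2]
      refine (hi n).trans ((infi_le_iSup (Y n) (n + 1)).trans (iSup_mono fun j => le_of_eq ?_))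
      congr 1
    refine h1.trans (iSup_le fun j => ?_)
    refine le_ssub_of_ge (j + n + 2) fun k hk => ?_
    have hk' : n < k := by omega
    simp only [E, hk', if_true]
    rw [fst_disj _ (by omega : j ≠ k - n - 1)]
    exact bot_le
  refine ⟨⨆ n, E n, iSup_le fun n => (hEY n).trans (hanti 0 n (Nat.zero_le _)), ?_, fun m => ?_⟩
  · refine le_iInf fun N => ?_
    have h1 : Γ ≤ ⨆ j, g N j := by
      have h2 : (⨆ j, g N j) = ⨆ j, Y N (j + N + 1) := iSup_fst _
      rw [h2]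
      refine (hi N).trans ((infi_le_iSup (Y N) (N + 1)).trans (iSup_mono fun j => le_of_eq ?_))
      congr 1
    refine h1.trans (iSup_le fun j => ?_)
    refine le_iSup_of_le (j + 1) ?_
    have h3 : E N (j + 1 + N) ≤ (⨆ n, E n) (j + 1 + N) := le_iSup E N _
    refine le_trans (le_of_eq ?_) h3
    have hlt : N < j + 1 + N := by omega
    simp only [E, hlt, if_true]
    congr 1
    omega
  · have h1 : (⨆ n, E n) ≤ cS E m ⊔ Y m := by
      refine iSup_le fun n => ?_
      rcases Nat.lt_or_ge n m with h' | h'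
      · exact (le_cS E h').trans le_sup_left
      · exact (hEY n).trans ((hanti m n h').trans le_sup_right)
    refine le_trans ?_ (ssub_mono h1 le_rfl)
    rw [sup_ssub, ssub_refl, inf_top_eq]
    exact le_cS_ssub fun n _ => (hEfin n).trans (ssub_mono le_rfl bot_le)

theorem pi : PiStatement.{u} := fun _ _ _ Y hY hi => exists_pi Y hY hi

/-! ## SPLIT -/

/-- Parity of the number of elements of `X` below `n`. -/
def par (X : Rl B) : ℕ → B
  | 0 => ⊥
  | n + 1 => par X n ∆ X n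

theorem par_step (X : Rl B) (m k : ℕ) :
    par X m ⊓ (⨅ j : Fin k, (X (m + j))ᶜ) ≤ par X (m + k) ∧
      (par X m)ᶜ ⊓ (⨅ j : Fin k, (X (m + j))ᶜ) ≤ (par X (m + k))ᶜ := by
  induction k with
  | zero => exact ⟨inf_le_left, inf_le_left⟩
  | succ k ih =>
    have h1 : (⨅ j : Fin (k + 1), (X (m + j))ᶜ) ≤ ⨅ j : Fin k, (X (m + j))ᶜ :=
      le_iInf fun j => iInf_le (fun j : Fin (k + 1) => (X (m + j))ᶜ) j.castSucc
    have h2 : (⨅ j : Fin (k + 1), (X (m + j))ᶜ) ≤ (X (m + k))ᶜ :=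
      iInf_le (fun j : Fin (k + 1) => (X (m + j))ᶜ) (Fin.last k)
    have e : m + (k + 1) = m + k + 1 := by omega
    rw [e, par]
    constructor
    · have h3 := (inf_le_inf_left (par X m) h1).trans ih.1
      refine le_trans (le_inf h3 (inf_le_right.trans h2)) ?_
      rw [symmDiff_def, sdiff_eq]
      exact le_sup_left
    · have h3 := (inf_le_inf_left (par X m)ᶜ h1).trans ih.2
      refine le_trans (le_inf h3 (inf_le_right.trans h2)) ?_
      rw [le_compl_iff_disjoint_right, disjoint_iff_inf_le, symmDiff_def, inf_sup_left, sdiff_eq,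
        sdiff_eq]
      refine sup_le ?_ ?_
      · exact le_trans (le_inf (inf_le_left.trans inf_le_left) (inf_le_right.trans inf_le_left))
          (by rw [compl_inf_eq_bot])
      · exact le_trans (le_inf (inf_le_left.trans inf_le_right) (inf_le_right.trans inf_le_left))
          (by rw [compl_inf_eq_bot])

theorem par_next (X : Rl B) (m : ℕ) :
    par X m ⊓ (⨆ k, X (k + m)) ≤ ⨆ k, X (k + m) ⊓ par X (k + m) ∧
      (par X m)ᶜ ⊓ (⨆ k, X (k + m)) ≤ ⨆ k, X (k + m) ⊓ (par X (k + m))ᶜ := by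
  rw [← iSup_fst fun k => X (k + m)]
  constructor <;>
  · rw [inf_iSup_eq]
    refine iSup_mono fun k => le_inf (inf_le_right.trans (fst_le _ _)) ?_
    have h1 : fst (fun k => X (k + m)) k ≤ ⨅ j : Fin k, (X (m + j))ᶜ := by
      refine inf_le_right.trans (iInf_mono fun j => le_of_eq ?_)
      rw [Nat.add_comm]
    rw [Nat.add_comm k m]
    first
      | exact (inf_le_inf_left _ h1).trans (par_step X m k).1
      | exact (inf_le_inf_left _ h1).trans (par_step X m k).2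

theorem infi_par (X : Rl B) :
    infi X ≤ infi (fun n => X n ⊓ (par X n)ᶜ) ∧ infi X ≤ infi (fun n => X n ⊓ par X n) := by
  have tail : ∀ m, infi X ≤ ⨆ k, X (k + m) := infi_le_iSup X
  have hle : ∀ (f : ℕ → B) (N m : ℕ), (⨆ k, f (k + (m + N))) ≤ ⨆ k, f (k + N) := by
    intro f N m
    refine iSup_le fun k => le_iSup_of_le (k + m) (le_of_eq ?_)
    congr 1
    omega
  constructor
  · refine le_iInf fun N => ?_
    -- the elements of `X` from `N` on
    have h0 : infi X ≤ ⨆ m, (infi X ⊓ X (m + N)) := by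
      rw [← inf_iSup_eq]
      exact le_inf le_rfl (tail N)
    refine h0.trans (iSup_le fun m => ?_)
    have h1 : infi X ⊓ X (m + N) ≤ (X (m + N) ⊓ (par X (m + N))ᶜ) ⊔
        (infi X ⊓ (X (m + N) ⊓ par X (m + N))) := by
      calc infi X ⊓ X (m + N) = (infi X ⊓ X (m + N)) ⊓ ((par X (m + N))ᶜ ⊔ par X (m + N)) := by
            rw [compl_sup_eq_top, inf_top_eq]
        _ ≤ _ := by
            rw [inf_sup_left]
            refine sup_le_sup ?_ ?_
            · exact inf_le_inf_right _ inf_le_right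
            · rw [inf_assoc]
    refine h1.trans (sup_le (le_iSup (fun k => X (k + N) ⊓ (par X (k + N))ᶜ) m) ?_)
    have h2 : X (m + N) ⊓ par X (m + N) ≤ (par X (m + 1 + N))ᶜ := by
      have e : m + 1 + N = m + N + 1 := by omega
      rw [e, par, le_compl_iff_disjoint_right, disjoint_iff_inf_le, symmDiff_def, inf_sup_left,
        sdiff_eq, sdiff_eq]
      refine sup_le ?_ ?_
      · exact le_trans (le_inf (inf_le_left.trans inf_le_left) (inf_le_right.trans inf_le_right))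
          (by rw [inf_compl_self])
      · exact le_trans (le_inf (inf_le_left.trans inf_le_right) (inf_le_right.trans inf_le_right))
          (by rw [inf_compl_self])
    have h3 : infi X ⊓ (X (m + N) ⊓ par X (m + N)) ≤
        (par X (m + 1 + N))ᶜ ⊓ ⨆ k, X (k + (m + 1 + N)) :=
      le_inf (inf_le_right.trans h2) (inf_le_left.trans (tail _))
    exact (h3.trans (par_next X _).2).trans
      (hle (fun k => X k ⊓ (par X k)ᶜ) N (m + 1))
  · refine le_iInf fun N => ?_
    have h0 : infi X ≤ ⨆ m, (infi X ⊓ X (m + N)) := by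
      rw [← inf_iSup_eq]
      exact le_inf le_rfl (tail N)
    refine h0.trans (iSup_le fun m => ?_)
    have h1 : infi X ⊓ X (m + N) ≤ (X (m + N) ⊓ par X (m + N)) ⊔
        (infi X ⊓ (X (m + N) ⊓ (par X (m + N))ᶜ)) := by
      calc infi X ⊓ X (m + N) = (infi X ⊓ X (m + N)) ⊓ (par X (m + N) ⊔ (par X (m + N))ᶜ) := by
            rw [sup_compl_eq_top, inf_top_eq]
        _ ≤ _ := by
            rw [inf_sup_left]
            refine sup_le_sup ?_ ?_
            · exact inf_le_inf_right _ inf_le_right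
            · rw [inf_assoc]
    refine h1.trans (sup_le (le_iSup (fun k => X (k + N) ⊓ par X (k + N)) m) ?_)
    have h2 : X (m + N) ⊓ (par X (m + N))ᶜ ≤ par X (m + 1 + N) := by
      have e : m + 1 + N = m + N + 1 := by omega
      rw [e, par, symmDiff_def, sdiff_eq, sdiff_eq]
      exact le_sup_right
    have h3 : infi X ⊓ (X (m + N) ⊓ (par X (m + N))ᶜ) ≤
        par X (m + 1 + N) ⊓ ⨆ k, X (k + (m + 1 + N)) :=
      le_inf (inf_le_right.trans h2) (inf_le_left.trans (tail _))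
    exact (h3.trans (par_next X _).1).trans (hle (fun k => X k ⊓ par X k) N (m + 1))

theorem split : SplitStatement.{u} := fun B _ X => by
  refine ⟨fun n => X n ⊓ (par X n)ᶜ, fun n => inf_le_left, (infi_par X).1, ?_⟩
  refine (infi_par X).2.trans (infi_mono fun n => ?_)
  simp only [Pi.inf_apply, Pi.compl_apply, compl_inf, compl_compl]
  exact le_inf inf_le_left (inf_le_right.trans le_sup_right)

/-! ## NU -/

end Pool.Agent.Lib.MP_c5d73d_lc.F.H80

namespace Pool.Agent.Lib.MP_c5d73d_lc.F.NU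

open Pool.Agent.Lib.MP_100a6c_lc
open Pool.Agent.Lib.MP_c5d73d_lc.F.H80

variable {B : Type u} [CompleteBooleanAlgebra B] {x : Rl B → B}

theorem bot (h : NU x) : x ⊥ = ⊥ := by
  have h1 : x (⊤ ⊓ (⊤ : Rl B)ᶜ) = x ⊤ ⊓ x (⊤ : Rl B)ᶜ := h.inf _ _
  rw [h.compl, inf_compl_self, inf_compl_self] at h1
  exact h1

theorem top (h : NU x) : x ⊤ = ⊤ := by
  have h1 := h.compl ⊥
  rw [h.bot, compl_bot, compl_bot] at h1
  exact h1

theorem sup (h : NU x) (a b : Rl B) : x (a ⊔ b) = x a ⊔ x b := by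
  have h1 := h.compl (aᶜ ⊓ bᶜ)
  have h2 : (aᶜ ⊓ bᶜ)ᶜ = a ⊔ b := by rw [compl_inf, compl_compl, compl_compl]
  rw [h2, h.inf, h.compl, h.compl, compl_inf, compl_compl, compl_compl] at h1
  exact h1

theorem le_of_le (h : NU x) {a b : Rl B} (hab : a ≤ b) : x a ≤ x b := by
  have := h.mono a b
  rwa [ssub_top_of_le hab, top_inf_eq] at this

theorem le_infi (h : NU x) (a : Rl B) : x a ≤ infi a := by
  have h1 := h.mono a ⊥
  rw [h.bot, ssub_bot] at h1
  rw [← compl_compl (infi a), le_compl_iff_disjoint_left, disjoint_iff_inf_le]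
  exact h1

theorem of_le (h : NU x) {c : B} {a b : Rl B} (hs : c ≤ ssub a b) (ha : c ≤ x a) : c ≤ x b :=
  (le_inf hs ha).trans (h.mono a b)

/-- `x` respects equality of reals. -/
theorem congr_le (h : NU x) {c : B} {a b : Rl B} (hc : ∀ n, c ⊓ a n ≤ b n) : c ⊓ x a ≤ x b :=
  (inf_le_inf_right _ (le_ssub hc)).trans (h.mono a b)

theorem cst (h : NU x) (c : B) : x (cst c) = c := by
  refine le_antisymm ((h.le_infi _).trans (infi_cst c).le) ?_
  have h1 : c ⊓ x ⊤ ≤ x (H80.cst c) := h.congr_le fun n => inf_le_left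
  rwa [h.top, inf_top_eq] at h1

theorem inf_cst (h : NU x) (a : Rl B) (c : B) : x (a ⊓ H80.cst c) = x a ⊓ c := by
  rw [h.inf, h.cst]

theorem sup_cst (h : NU x) (a : Rl B) (c : B) : x (a ⊔ H80.cst c) = x a ⊔ c := by
  rw [h.sup, h.cst]

theorem eq_le (h : NU x) (a b : Rl B) : (⨅ n, (a n ⇔ b n)) ⊓ x a ≤ x b :=
  (inf_le_inf_right _ (eq_le_ssub a b)).trans (h.mono a b)

/-- If `a ∩ b` is finite at `c` then `a`, `b` are not both in `x`. -/
theorem disj (h : NU x) {c : B} {a b : Rl B} (hc : c ⊓ infi (a ⊓ b) = ⊥) : c ⊓ x a ⊓ x b = ⊥ := by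
  refine le_bot_iff.1 (le_trans ?_ hc.le)
  rw [inf_assoc, ← h.inf]
  exact inf_le_inf_left _ (h.le_infi _)

end Pool.Agent.Lib.MP_c5d73d_lc.F.NU

namespace Pool.Agent.Lib.MP_c5d73d_lc.F.TP

open Pool.Agent.Lib.MP_100a6c_lc
open Pool.Agent.Lib.MP_c5d73d_lc.F.H80

variable {B : Type u} [CompleteBooleanAlgebra B] {J : Rl B → B}

theorem of_le (h : TP J) {c : B} {a b : Rl B} (hs : c ≤ ssub a b) (hb : c ≤ J b) : c ≤ J a :=
  (le_inf hs hb).trans (h.mono a b)

theorem anti (h : TP J) {a b : Rl B} (hab : a ≤ b) : J b ≤ J a := by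
  have := h.mono a b
  rwa [ssub_top_of_le hab, top_inf_eq] at this

/-- `J` respects equality of reals. -/
theorem congr_le (h : TP J) {c : B} {a b : Rl B} (hc : ∀ n, c ⊓ a n ≤ b n) : c ⊓ J b ≤ J a :=
  (inf_le_inf_right _ (le_ssub hc)).trans (h.mono a b)

theorem eq_le (h : TP J) (a b : Rl B) : (⨅ n, (a n ⇔ b n)) ⊓ J a ≤ J b :=
  (inf_le_inf_right _ (eq_le_ssub' a b)).trans (h.mono b a)

theorem of_fin (h : TP J) (a : Rl B) : (infi a)ᶜ ≤ J a := by
  rw [← ssub_bot]
  exact h.of_le le_rfl (by rw [h.bot]; exact le_top)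

/-- Restricting `a` to the value of `a ∈ J`. -/
theorem restr (h : TP J) {c : B} {a : Rl B} (hc : c ≤ J a) : J (a ⊓ H80.cst c) = ⊤ := by
  refine top_le_iff.1 ?_
  have h1 : c ≤ J (a ⊓ H80.cst c) := hc.trans (h.anti inf_le_left)
  have h2 : cᶜ ≤ J (a ⊓ H80.cst c) := by
    refine h.of_le (b := ⊥) (le_ssub fun n => ?_) (by rw [h.bot]; exact le_top)
    refine le_trans (le_inf inf_le_left (inf_le_right.trans inf_le_right)) ?_
    simp only [cst_apply, compl_inf_self, Pi.bot_apply]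
    exact le_rfl
  rw [← sup_compl_eq_top (x := c)]
  exact sup_le h1 h2

theorem univ : TP (fun _ : Rl B => (⊤ : B)) where
  bot := rfl
  sup _ _ := le_top
  mono _ _ := le_top
  tall X := ⟨X, le_rfl, by simp⟩
  pp a _ := ⟨⊤, rfl, fun n => ssub_top_of_le le_top⟩

end Pool.Agent.Lib.MP_c5d73d_lc.F.TP
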