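import Pool.Agent.Lib.MP_c5d73d_lc.F.H80.Fmls
import Pool.Agent.Lib.MP_100a6c_lc.Base

/-!
# Two-valued models from Boolean-valued models
-/

universe u v w

open scoped symmDiff

namespace Pool.Agent.Lib.MP_c5d73d_lc.F.H80

open Pool.Agent.Lib.MP_100a6c_lc BName

variable {B : Type u} [CompleteBooleanAlgebra B]

/-! ## Formulas are extensional -/

theorem inf_fin_cons {n : ℕ} (v w : Fin n → BName B) (x y : BName B) :
    beq x y ⊓ (⨅ i, beq (v i) (w i)) ≤
      ⨅ i, beq ((Fin.cons x v : Fin (n + 1) → BName B) i) ((Fin.cons y w : Fin (n + 1) → BName B) i) := by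
  refine le_iInf fun i => ?_
  refine Fin.cases ?_ (fun i => ?_) i
  · exact inf_le_left
  · exact inf_le_right.trans (iInf_le _ i)

theorem val_ext : ∀ {n : ℕ} (φ : Fml n) (v w : Fin n → BName B),
    (⨅ i, beq (v i) (w i)) ⊓ val (VB B) φ v ≤ val (VB B) φ w
  | _, .mem i j, v, w => by
      rw [val, val]
      have h1 : (⨅ i, beq (v i) (w i)) ⊓ bmem (v i) (v j) ≤ bmem (w i) (v j) :=
        (inf_le_inf_right _ (iInf_le _ i)).trans (bmem_congr_left _ _ _)
      exact (le_inf (inf_le_left.trans (iInf_le _ j)) h1).trans (bmem_congr_right _ _ _)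
  | _, .eq i j, v, w => by
      rw [val, val]
      have h1 : (⨅ i, beq (v i) (w i)) ⊓ beq (v i) (v j) ≤ beq (w i) (v j) :=
        (inf_le_inf_right _ (iInf_le _ i)).trans (ext_eq_left _ _ _)
      exact (le_inf (inf_le_left.trans (iInf_le _ j)) h1).trans (ext_eq_right _ _ _)
  | _, .fls, v, w => by rw [val, val]; exact inf_le_right
  | _, .imp φ ψ, v, w => by
      rw [val, val, le_himp_iff]
      have hs : (⨅ i, beq (v i) (w i)) = ⨅ i, beq (w i) (v i) := iInf_congr fun i => beq_symm _ _
      have h1 : (⨅ i, beq (v i) (w i)) ⊓ (val (VB B) φ v ⇨ val (VB B) ψ v) ⊓ val (VB B) φ w ≤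
          val (VB B) φ v := by
        refine le_trans ?_ (val_ext φ w v)
        rw [← hs]
        exact inf_le_inf_right _ inf_le_left
      have h2 := le_trans (le_inf (inf_le_left.trans inf_le_right) h1) himp_inf_le
      exact (le_inf (inf_le_left.trans inf_le_left) h2).trans (val_ext ψ v w)
  | _, .all φ, v, w => by
      rw [val, val]
      refine le_iInf fun x => ?_
      refine le_trans ?_ (val_ext φ (Fin.cons x v) (Fin.cons x w))
      refine le_inf ?_ (inf_le_right.trans (iInf_le _ x))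
      refine le_trans ?_ (inf_fin_cons v w x x)
      rw [beq_refl, top_inf_eq]
      exact inf_le_left

theorem ext_val {n : ℕ} (φ : Fml (n + 1)) (v : Fin n → BName B) :
    Ext (fun x => val (VB B) φ (Fin.cons x v)) := by
  intro x y
  refine le_trans (inf_le_inf_right _ ?_) (val_ext φ (Fin.cons x v) (Fin.cons y v))
  refine le_trans ?_ (inf_fin_cons v v x y)
  simp [beq_refl]

/-! ## Ultrafilters -/

/-- `h` is (membership in) an ultrafilter of `B`. -/
structure Ult (h : B → Prop) : Prop where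
  top : h ⊤
  inf : ∀ a b, h (a ⊓ b) ↔ h a ∧ h b
  compl : ∀ a, h aᶜ ↔ ¬ h a

theorem exists_ult (h0 : (⊥ : B) ≠ ⊤) : ∃ h : B → Prop, Ult h := by
  have hd : Disjoint ((Order.PFilter.principal (⊤ : B) : Order.PFilter B) : Set B)
      ((Order.Ideal.principal (⊥ : B) : Order.Ideal B) : Set B) := by
    rw [Set.disjoint_left]
    intro x hx hx'
    have h1 : (⊤ : B) ≤ x := Order.PFilter.mem_principal.1 hx
    have h2 : x ≤ ⊥ := Order.Ideal.mem_principal.1 hx'
    exact h0 (le_antisymm bot_le (h1.trans h2))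
  obtain ⟨J, hJ, -, -⟩ := DistribLattice.prime_ideal_of_disjoint_filter_ideal hd
  refine ⟨fun a => a ∉ J, ?_, ?_, ?_⟩
  · exact Order.Ideal.IsProper.top_notMem (I := J) hJ.toIsProper
  · intro a b
    constructor
    · intro h
      exact ⟨fun ha => h (J.lower inf_le_left ha), fun hb => h (J.lower inf_le_right hb)⟩
    · rintro ⟨h1, h2⟩ h
      rcases hJ.mem_or_mem h with h | h
      · exact h1 h
      · exact h2 h
  · intro a
    constructor
    · intro h
      rw [not_not]
      exact (hJ.mem_or_compl_mem (x := a)).resolve_right h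
    · intro h h'
      rw [not_not] at h
      have hp := hJ.toIsProper
      exact Order.Ideal.IsProper.notMem_of_compl_mem hp h' h

namespace Ult

variable {h : B → Prop} (H : Ult h)
include H

theorem mono {a b : B} (hab : a ≤ b) (ha : h a) : h b := by
  rw [← inf_eq_left.2 hab, H.inf] at ha
  exact ha.2

theorem bot : ¬ h ⊥ := by
  rw [← compl_top, H.compl]
  exact not_not.2 H.top

theorem sup (a b : B) : h (a ⊔ b) ↔ h a ∨ h b := by
  rw [← compl_compl (a ⊔ b), compl_sup, H.compl, H.inf, H.compl, H.compl]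
  tauto

theorem himp (a b : B) : h (a ⇨ b) ↔ (h a → h b) := by
  rw [himp_eq, H.sup, H.compl]
  tauto

theorem iSup {φ : BName B → B} (hφ : Ext φ) : h (⨆ x, φ x) ↔ ∃ x, h (φ x) := by
  constructor
  · intro hh
    obtain ⟨τ, hτ⟩ := exists_max hφ
    exact ⟨τ, hτ ▸ hh⟩
  · rintro ⟨x, hx⟩
    exact H.mono (le_iSup φ x) hx

theorem iInf {φ : BName B → B} (hφ : Ext φ) : h (⨅ x, φ x) ↔ ∀ x, h (φ x) := by
  rw [← compl_compl (⨅ x, φ x), compl_iInf, H.compl, H.iSup hφ.compl]
  simp only [H.compl, not_exists, not_not]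

end Ult

/-! ## The quotient -/

variable {h : B → Prop} (H : Ult h)

/-- Equality modulo the ultrafilter. -/
def qSetoid : Setoid (BName B) where
  r x y := h (beq x y)
  iseqv := {
    refl := fun x => by rw [beq_refl]; exact H.top
    symm := fun {x y} hxy => by rw [beq_symm]; exact hxy
    trans := fun {x y z} hxy hyz => H.mono (beq_trans x y z) ((H.inf _ _).2 ⟨hxy, hyz⟩) }

/-- The quotient. -/
abbrev Quo : Type (u + 1) := Quotient (qSetoid H)

/-- Membership in the quotient. -/
def qmem (x y : Quo H) : Prop :=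
  Quotient.liftOn₂ x y (fun a b => h (bmem a b)) fun a b a' b' ha hb => by
    apply propext
    constructor
    · intro hab
      have h1 : h (bmem a' b) := H.mono (bmem_congr_left a a' b) ((H.inf _ _).2 ⟨ha, hab⟩)
      exact H.mono (bmem_congr_right a' b b') ((H.inf _ _).2 ⟨hb, h1⟩)
    · intro hab
      have ha' : h (beq a' a) := (qSetoid H).symm ha
      have hb' : h (beq b' b) := (qSetoid H).symm hb
      have h1 : h (bmem a b') := H.mono (bmem_congr_left a' a b') ((H.inf _ _).2 ⟨ha', hab⟩)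
      exact H.mono (bmem_congr_right a b' b) ((H.inf _ _).2 ⟨hb', h1⟩)

/-- The two-valued structure. -/
def QS : Str Prop (Quo H) where
  mem := qmem H
  eq := Eq

theorem los : ∀ {n : ℕ} (φ : Fml n) (v : Fin n → BName B),
    val (QS H) φ (fun i => (Quotient.mk (qSetoid H) (v i))) ↔ h (val (VB B) φ v)
  | _, .mem i j, v => by rw [val, val]; exact Iff.rfl
  | _, .eq i j, v => by
      rw [val, val]
      exact Quotient.eq (r := qSetoid H)
  | _, .fls, v => by
      rw [val, val]
      exact ⟨fun h => h.elim, fun h' => (H.bot h').elim⟩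
  | _, .imp φ ψ, v => by
      rw [val, val, H.himp, ← los φ v, ← los ψ v]
      exact Iff.rfl
  | _, .all φ, v => by
      rw [val, val, H.iInf (ext_val φ v)]
      rw [iInf_Prop_eq]
      constructor
      · intro hh x
        rw [← los φ (Fin.cons x v)]
        have := hh (Quotient.mk (qSetoid H) x)
        convert this using 2 with i
        refine Fin.cases ?_ (fun i => ?_) i <;> rfl
      · intro hh q
        induction q using Quotient.inductionOn with
        | _ x =>
          have := (los φ (Fin.cons x v)).2 (hh x)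
          convert this using 2 with i
          refine Fin.cases ?_ (fun i => ?_) i <;> rfl

theorem los' {n : ℕ} (φ : Fml n) (v : Fin n → Quo H) :
    val (QS H) φ v ↔ h (val (VB B) φ fun i => (v i).out) := by
  rw [← los H]
  simp only [Quotient.out_eq]

/-- A nontrivial Boolean-valued model of ZFC + MA + not CH + covering gives a two-valued model. -/
theorem two_valued (h0 : (⊥ : B) ≠ ⊤) (hZ : ZFC (VB B) = ⊤) (hM : MA (VB B) = ⊤)
    (hC : CH (VB B) = ⊥) (hV : Cov (VB B) = ⊤) :
    ∃ (M : Type (u + 1)) (E : M → M → Prop),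
      ZFC (⟨E, Eq⟩ : Str Prop M) ∧ MA (⟨E, Eq⟩ : Str Prop M) ∧ ¬ CH (⟨E, Eq⟩ : Str Prop M) ∧
        Cov (⟨E, Eq⟩ : Str Prop M) := by
  obtain ⟨h, H⟩ := exists_ult h0
  refine ⟨Quo H, qmem H, ?_, ?_, ?_, ?_⟩
  · change ZFC (QS H)
    rw [ZFC, inf_eq_top_iff, inf_eq_top_iff] at hZ
    obtain ⟨⟨h1, h2⟩, h3⟩ := hZ
    refine ⟨⟨?_, ?_⟩, ?_⟩
    · rw [← Fm.val_base _ (Fin.elim0), los', Fm.val_base, h1]
      exact H.top
    · rw [Fm.separation_eq] at h2 ⊢
      simp only [iInf_Prop_eq]
      intro n φ v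
      rw [los']
      simp only [iInf_eq_top] at h2
      rw [h2]
      exact H.top
    · rw [Fm.replacement_eq] at h3 ⊢
      simp only [iInf_Prop_eq]
      intro n φ v
      rw [los']
      simp only [iInf_eq_top] at h3
      rw [h3]
      exact H.top
  · change MA (QS H)
    rw [← Fm.val_ma _ (Fin.elim0), los', Fm.val_ma, hM]
    exact H.top
  · change ¬ CH (QS H)
    rw [← Fm.val_ch _ (Fin.elim0), los', Fm.val_ch, hC]
    exact H.bot
  · change Cov (QS H)
    rw [← Fm.val_cov _ (Fin.elim0), los', Fm.val_cov, hV]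
    exact H.top

end Pool.Agent.Lib.MP_c5d73d_lc.F.H80
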