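import Pool.Agent.Lib.MP_c5d73d_lc.F.H80.Basic
import Pool.Agent.Lib.MP_c5d73d_lc.F.IfaceW

/-!
# NWD: the closed sets `F_J` are nowhere dense
-/

universe u

open Cardinal Filter

open scoped symmDiff

namespace Pool.Agent.Lib.MP_c5d73d_lc.F.H80

open Pool.Agent.Lib.MP_100a6c_lc
open BName
open H36 (nn om)

variable {B : Type u} [CompleteBooleanAlgebra B]

theorem mem_Star (z : BName B) : bmem z (Star B) = ⨆ x : {x : Rl B → B // NU x}, beq z (un x.1) := by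
  rw [Star, mem_mk]
  exact iSup_congr fun x => top_inf_eq _

theorem mem_Star_un {x : Rl B → B} (hx : NU x) : bmem (un x) (Star B) = ⊤ := by
  rw [mem_Star]
  refine top_le_iff.1 (le_iSup_of_le ⟨x, hx⟩ ?_)
  rw [beq_refl]

theorem mem_un (z : BName B) (x : Rl B → B) : bmem z (un x) = ⨆ b, x b ⊓ beq z (rn b) := by
  rw [un, mem_mk]

theorem mem_FJ (J : Rl B → B) (z : BName B) : bmem z (FJ J) =
    ⨆ x : {x : Rl B → B // NU x}, (⨅ a, (J a ⊓ x.1 a)ᶜ) ⊓ beq z (un x.1) := by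
  rw [FJ, mem_mk]

/-- `y ∈ F_J` if and only if `y ∩ J = ∅`. -/
theorem mem_FJ_un (hU : UltraStatement.{u}) (J : Rl B → B) {y : Rl B → B} (hy : NU y) :
    bmem (un y) (FJ J) = ⨅ a, (J a ⊓ y a)ᶜ := by
  obtain ⟨-, h2, -, -, -⟩ := hU B
  rw [mem_FJ]
  refine le_antisymm (iSup_le fun x => le_iInf fun a => ?_) (le_iSup_of_le ⟨y, hy⟩ ?_)
  · rw [h2 y x.1 hy x.2, le_compl_iff_disjoint_right, disjoint_iff_inf_le]
    have e1 : (⨅ a, (J a ⊓ x.1 a)ᶜ) ⊓ (⨅ a, y a ⇔ x.1 a) ⊓ (J a ⊓ y a) ≤ x.1 a := by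
      have : (⨅ a, y a ⇔ x.1 a) ≤ y a ⇨ x.1 a := (iInf_le _ a).trans inf_le_right
      exact le_trans (le_inf ((inf_le_left.trans inf_le_right).trans this)
        (inf_le_right.trans inf_le_right)) himp_inf_le
    have e2 : (⨅ a, (J a ⊓ x.1 a)ᶜ) ⊓ (⨅ a, y a ⇔ x.1 a) ⊓ (J a ⊓ y a) ≤ (J a ⊓ x.1 a)ᶜ :=
      (inf_le_left.trans inf_le_left).trans (iInf_le _ a)
    refine le_trans (le_inf e2 (le_inf (inf_le_right.trans inf_le_left) e1)) ?_
    rw [compl_inf_eq_bot]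
  · rw [beq_refl, inf_top_eq]

theorem nwd (hU : UltraStatement.{u}) (hE : ExuStatement.{u}) :
    NwdStatement.{u} := fun B _ J hJ => by
  obtain ⟨hU1, hU2, -, -, -⟩ := hU B
  refine top_le_iff.1 (le_iInf fun x => le_iInf fun a => ?_)
  rw [le_himp_iff, top_inf_eq]
  change bmem x (Star B) ⊓ bmem a x ≤
    ⨆ y, bmem y (Star B) ⊓ bmem a y ⊓ (bmem y (FJ J))ᶜ
  rw [mem_Star, iSup_inf_eq]
  refine iSup_le fun z => ?_
  have h1 : beq x (un z.1) ⊓ bmem a x ≤ bmem a (un z.1) := (ext_mem_right a) x (un z.1)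
  refine h1.trans ?_
  rw [mem_un]
  refine iSup_le fun b => ?_
  -- an infinite subset in `J`
  obtain ⟨Y, hYb, hY⟩ := hJ.tall b
  set Y' : Rl B := Y ⊔ cst (infi Y)ᶜ with hY'
  have hinf : infi Y' = ⊤ := by rw [hY', infi_sup, infi_cst, sup_compl_eq_top]
  obtain ⟨y, hy, hyF⟩ := hE B (fun t => ssub Y' t)
    (by change ssub Y' ⊥ = ⊥; rw [ssub_bot, hinf, compl_top])
    (ssub_top_of_le le_top) (fun s t => by rw [ssub_inf])
    (fun s t => by rw [inf_comm]; exact ssub_trans _ _ _)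
  have hyY' : y Y' = ⊤ := top_le_iff.1 ((ssub_refl Y').ge.trans (hyF Y'))
  have hyY : infi Y ≤ y Y := by
    rw [hY', hy.sup_cst] at hyY'
    have := congrArg (fun c => c ⊓ infi Y) hyY'
    simp only [top_inf_eq, inf_sup_right, compl_inf_eq_bot, sup_bot_eq] at this
    rw [← this]; exact inf_le_left
  have hz : z.1 b ≤ infi Y := (z.2.le_infi b).trans (hY.trans inf_le_left)
  have hzJ : z.1 b ≤ J Y := (z.2.le_infi b).trans (hY.trans inf_le_right)
  refine le_iSup_of_le (un y) (le_inf (le_inf ?_ ?_) ?_)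
  · rw [mem_Star_un hy]; exact le_top
  · refine (ext_mem_left (un y)).of_le' (x := rn b) inf_le_right ?_
    rw [hU1 y hy]
    exact inf_le_left.trans ((hz.trans hyY).trans (hy.le_of_le hYb))
  · rw [mem_FJ_un hU J hy, le_compl_iff_disjoint_right, disjoint_iff_inf_le]
    calc z.1 b ⊓ beq a (rn b) ⊓ (⨅ a, (J a ⊓ y a)ᶜ) ≤ (J Y ⊓ y Y) ⊓ (J Y ⊓ y Y)ᶜ :=
          le_inf (le_inf ((inf_le_left.trans inf_le_left).trans hzJ)
            ((inf_le_left.trans inf_le_left).trans (hz.trans hyY)))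
            (inf_le_right.trans (iInf_le _ Y))
      _ ≤ ⊥ := by rw [inf_compl_self]

end Pool.Agent.Lib.MP_c5d73d_lc.F.H80
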