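import Pool.Agent.Lib.MP_c5d73d_lc.F.Defs

/-!
# The notions of `Defs.lean` as formulas of the language of set theory
-/

universe u v w

open scoped symmDiff

set_option linter.unusedSimpArgs false
set_option linter.unusedVariables false

namespace Pool.Agent.Lib.MP_c5d73d_lc.F.H80

open Pool.Agent.Lib.MP_100a6c_lc

namespace Fm

variable {n m : ℕ}

/-! ## Connectives -/

def neg (φ : Fml n) : Fml n := .imp φ .fls
def an (φ ψ : Fml n) : Fml n := neg (.imp φ (neg ψ))
def ore (φ ψ : Fml n) : Fml n := .imp (neg φ) ψ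
def bi (φ ψ : Fml n) : Fml n := an (.imp ψ φ) (.imp φ ψ)
def ex (φ : Fml (n + 1)) : Fml n := neg (.all (neg φ))

/-- Renaming of variables. -/
def ren : {n m : ℕ} → (Fin n → Fin m) → Fml n → Fml m
  | _, _, f, .mem i j => .mem (f i) (f j)
  | _, _, f, .eq i j => .eq (f i) (f j)
  | _, _, _, .fls => .fls
  | _, _, f, .imp φ ψ => .imp (ren f φ) (ren f ψ)
  | _, m, f, .all φ => .all (ren (Fin.cons 0 fun i => (f i).succ) φ)

/-! ## Bound variables -/

abbrev b0 : Fin (n + 1) := 0
abbrev b1 : Fin (n + 2) := Fin.succ 0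
abbrev b2 : Fin (n + 3) := Fin.succ (Fin.succ 0)
abbrev b3 : Fin (n + 4) := Fin.succ (Fin.succ (Fin.succ 0))
abbrev b4 : Fin (n + 5) := Fin.succ (Fin.succ (Fin.succ (Fin.succ 0)))
abbrev s1 (i : Fin n) : Fin (n + 1) := i.succ
abbrev s2 (i : Fin n) : Fin (n + 2) := i.succ.succ
abbrev s3 (i : Fin n) : Fin (n + 3) := i.succ.succ.succ

variable {B : Type v} {U : Type w} [CompleteBooleanAlgebra B] (S : Str B U) (v : Fin n → U)

theorem val_mem (i j : Fin n) : val S (.mem i j) v = S.mem (v i) (v j) := by rw [val]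
theorem val_eq (i j : Fin n) : val S (.eq i j) v = S.eq (v i) (v j) := by rw [val]
theorem val_imp (φ ψ : Fml n) : val S (.imp φ ψ) v = val S φ v ⇨ val S ψ v := by rw [val]
theorem val_all (φ : Fml (n + 1)) : val S (.all φ) v = ⨅ x, val S φ (Fin.cons x v) := by rw [val]
theorem val_neg (φ : Fml n) : val S (neg φ) v = (val S φ v)ᶜ := by
  rw [neg, val, val, himp_bot]
theorem val_an (φ ψ : Fml n) : val S (an φ ψ) v = val S φ v ⊓ val S ψ v := by
  rw [an, val_neg, val, val_neg, himp_eq, compl_sup, compl_compl, compl_compl, inf_comm]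
theorem val_ore (φ ψ : Fml n) : val S (ore φ ψ) v = val S φ v ⊔ val S ψ v := by
  rw [ore, val, val_neg, himp_eq, compl_compl, sup_comm]
theorem val_bi (φ ψ : Fml n) : val S (bi φ ψ) v = (val S φ v ⇔ val S ψ v) := by
  rw [bi, val_an, val, val]; rfl
theorem val_ex (φ : Fml (n + 1)) : val S (ex φ) v = ⨆ x, val S φ (Fin.cons x v) := by
  rw [ex, val_neg, val, compl_iInf]
  simp only [val_neg, compl_compl]

theorem val_ren : ∀ {n m : ℕ} (f : Fin n → Fin m) (φ : Fml n) (v : Fin m → U),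
    val S (ren f φ) v = val S φ fun i => v (f i)
  | _, _, f, .mem i j, v => by rw [ren, val, val]
  | _, _, f, .eq i j, v => by rw [ren, val, val]
  | _, _, f, .fls, v => by rw [ren, val, val]
  | _, _, f, .imp φ ψ, v => by rw [ren, val, val, val_ren, val_ren]
  | _, m, f, .all φ, v => by
      rw [ren, val, val]
      refine iInf_congr fun x => ?_
      rw [val_ren]
      congr 1
      funext i
      refine Fin.cases ?_ (fun i => ?_) i <;> rfl

/-! ## Notions -/

def sub (x y : Fin n) : Fml n := .all (.imp (.mem b0 (s1 x)) (.mem b0 (s1 y)))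
def empt (x : Fin n) : Fml n := .all (neg (.mem b0 (s1 x)))
def suc (x y : Fin n) : Fml n := .all (bi (.mem b0 (s1 x)) (ore (.mem b0 (s1 y)) (.eq b0 (s1 y))))
def upair (p a b : Fin n) : Fml n := .all (bi (.mem b0 (s1 p)) (ore (.eq b0 (s1 a)) (.eq b0 (s1 b))))
def pair (p a b : Fin n) : Fml n :=
  ex (ex (an (an (upair b1 (s2 a) (s2 a)) (upair b0 (s2 a) (s2 b))) (upair (s2 p) b1 b0)))
def rel (f a b : Fin n) : Fml n := ex (an (pair b0 (s1 a) (s1 b)) (.mem b0 (s1 f)))
def le (x y : Fin n) : Fml n :=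
  ex (an (.all (.all (.all (.imp (an (rel b3 b2 b1) (rel b3 b2 b0)) (.eq b1 b0)))))
    (.all (.imp (.mem b0 (s2 x)) (ex (an (.mem b0 (s3 y)) (rel b2 b0 b1))))))
def tran (x : Fin n) : Fml n := .all (.imp (.mem b0 (s1 x)) (sub b0 (s1 x)))
def ord (x : Fin n) : Fml n := an (tran x) (.all (.imp (.mem b0 (s1 x)) (tran b0)))
def om (w : Fin n) : Fml n :=
  an (an (an (ord w) (ex (.mem b0 (s1 w))))
    (.all (.imp (.mem b0 (s1 w)) (ex (an (.mem b0 (s2 w)) (.mem b1 b0))))))
    (.all (.imp (.mem b0 (s1 w)) (ore (empt b0) (ex (suc b1 b0)))))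
def pow (p x : Fin n) : Fml n := .all (bi (.mem b0 (s1 p)) (sub b0 (s1 x)))
def succ (m k : Fin n) : Fml n :=
  an (an (ord m) (neg (le m k))) (.all (.imp (.mem b0 (s1 m)) (le b0 (s1 k))))
def ch : Fml 0 := ex (ex (ex (an (an (an (om b2) (succ b1 b2)) (pow b0 b2)) (le b0 b1))))

def preo (P r : Fin n) : Fml n :=
  an (an (ex (.mem b0 (s1 P))) (.all (.imp (.mem b0 (s1 P)) (rel (s1 r) b0 b0))))
    (.all (.all (.all (.imp (an (an (an (an (.mem b2 (s3 P)) (.mem b1 (s3 P))) (.mem b0 (s3 P)))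
      (rel (s3 r) b2 b1)) (rel (s3 r) b1 b0)) (rel (s3 r) b2 b0)))))
def cmp (P r p q : Fin n) : Fml n :=
  ex (an (an (.mem b0 (s1 P)) (rel (s1 r) b0 (s1 p))) (rel (s1 r) b0 (s1 q)))
def ccc (P r : Fin n) : Fml n :=
  .all (.imp (an (sub b0 (s1 P)) (.all (.all (.imp (an (an (.mem b1 b2) (.mem b0 b2))
    (neg (.eq b1 b0))) (neg (cmp (s3 P) (s3 r) b1 b0)))))) (.all (.imp (om b0) (le b1 b0))))
def dense (P r D : Fin n) : Fml n :=
  an (sub D P) (.all (.imp (.mem b0 (s1 P)) (ex (an (.mem b0 (s2 D)) (rel (s2 r) b0 b1)))))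
def filt (P r G : Fin n) : Fml n :=
  an (an (an (sub G P) (ex (.mem b0 (s1 G))))
    (.all (.all (.imp (an (an (.mem b1 (s2 G)) (.mem b0 (s2 P))) (rel (s2 r) b1 b0))
      (.mem b0 (s2 G))))))
    (.all (.all (.imp (an (.mem b1 (s2 G)) (.mem b0 (s2 G)))
      (ex (an (an (.mem b0 (s3 G)) (rel (s3 r) b0 b2)) (rel (s3 r) b0 b1))))))
def ma : Fml 0 :=
  .all (.all (.all (.all (.all (.imp
    (an (an (an (an (an (preo b4 b3) (ccc b4 b3))
      (.all (.imp (.mem b0 (s1 b2)) (dense (s1 b4) (s1 b3) b0)))) (om b1)) (pow b0 b1))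
      (neg (le b0 b2)))
    (ex (an (filt (s1 b4) (s1 b3) b0) (.all (.imp (.mem b0 (s2 b2))
      (ex (an (.mem b0 b2) (.mem b0 b1)))))))))))) 

def inter (c a b : Fin n) : Fml n := .all (bi (.mem b0 (s1 c)) (an (.mem b0 (s1 a)) (.mem b0 (s1 b))))
def diff (c x a : Fin n) : Fml n :=
  .all (bi (.mem b0 (s1 c)) (an (.mem b0 (s1 x)) (neg (.mem b0 (s1 a)))))
def npu (w x : Fin n) : Fml n :=
  an (an (an (an (.all (.imp (.mem b0 (s1 x)) (sub b0 (s1 w))))
    (.all (.all (.imp (an (an (.mem b1 (s2 x)) (sub b1 b0)) (sub b0 (s2 w))) (.mem b0 (s2 x))))))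
    (.all (.all (.all (.imp (an (an (.mem b2 (s3 x)) (.mem b1 (s3 x))) (inter b0 b2 b1))
      (.mem b0 (s3 x)))))))
    (.all (.all (.imp (an (sub b1 (s2 w)) (diff b0 (s2 w) b1))
      (bi (.mem b1 (s2 x)) (neg (.mem b0 (s2 x))))))))
    (.all (.all (.imp (an (.mem b1 (s2 w)) (upair b0 b1 b1)) (neg (.mem b0 (s2 x))))))
def star (w O : Fin n) : Fml n := .all (bi (.mem b0 (s1 O)) (npu (s1 w) b0))
def nb (O a : Fin n) (φ : Fml (n + 1)) : Fml n :=
  .all (.imp (an (.mem b0 (s1 O)) (.mem (s1 a) b0)) φ)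
def opn (O G : Fin n) : Fml n :=
  an (sub G O) (.all (.imp (.mem b0 (s1 G)) (ex (an (.mem b0 b1) (nb (s2 O) b0 (.mem b0 (s3 G)))))))
def closed (O F : Fin n) : Fml n :=
  an (sub F O) (.all (.imp (an (.mem b0 (s1 O)) (neg (.mem b0 (s1 F))))
    (ex (an (.mem b0 b1) (nb (s2 O) b0 (neg (.mem b0 (s3 F))))))))
def pset (w O F : Fin n) : Fml n :=
  an (closed O F) (.all (.imp (an (le b0 (s1 w)) (.all (.imp (.mem b0 b1) (an (opn (s2 O) b0)
    (sub (s2 F) b0))))) (.all (.imp (.mem b0 (s2 F)) (ex (an (.mem b0 b1) (nb (s3 O) b0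
      (.all (.imp (.mem b0 b4) (.mem b1 b0))))))))))
def nwd (O F : Fin n) : Fml n :=
  .all (.all (.imp (an (.mem b1 (s2 O)) (.mem b0 b1))
    (ex (an (an (.mem b0 (s3 O)) (.mem b1 b0)) (neg (.mem b0 (s3 F)))))))
def cov : Fml 0 :=
  ex (ex (ex (an (an (an (om b2) (star b2 b1))
    (.all (.imp (.mem b0 b1) (an (pset b3 b2 b0) (nwd b2 b0)))))
    (.all (.imp (.mem b0 b2) (ex (an (.mem b0 b2) (.mem b1 b0))))))))

/-! ## Values -/

theorem val_sub (x y : Fin n) : val S (sub x y) v = S.sub (v x) (v y) := by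
  simp only [sub, Str.sub, val_mem, val_eq, val_imp, val_all, val_neg, val_an, val_ore, val_bi, val_ex, b0, b1, b2, b3, b4, s1, s2, s3, Fin.cons_zero, Fin.cons_succ]
theorem val_empt (x : Fin n) : val S (empt x) v = isEmpty S (v x) := by
  simp only [empt, isEmpty, val_mem, val_eq, val_imp, val_all, val_neg, val_an, val_ore, val_bi, val_ex, b0, b1, b2, b3, b4, s1, s2, s3, Fin.cons_zero, Fin.cons_succ]
theorem val_suc (x y : Fin n) : val S (suc x y) v = isSuc S (v x) (v y) := by
  simp only [suc, isSuc, val_mem, val_eq, val_imp, val_all, val_neg, val_an, val_ore, val_bi, val_ex, b0, b1, b2, b3, b4, s1, s2, s3, Fin.cons_zero, Fin.cons_succ]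
theorem val_upair (p a b : Fin n) : val S (upair p a b) v = S.isUPair (v p) (v a) (v b) := by
  simp only [upair, Str.isUPair, val_mem, val_eq, val_imp, val_all, val_neg, val_an, val_ore, val_bi, val_ex, b0, b1, b2, b3, b4, s1, s2, s3, Fin.cons_zero, Fin.cons_succ]
theorem val_pair (p a b : Fin n) : val S (pair p a b) v = S.isPair (v p) (v a) (v b) := by
  simp only [pair, Str.isPair, val_upair, val_mem, val_eq, val_imp, val_all, val_neg, val_an, val_ore, val_bi, val_ex, b0, b1, b2, b3, b4, s1, s2, s3, Fin.cons_zero, Fin.cons_succ]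
theorem val_rel (f a b : Fin n) : val S (rel f a b) v = S.rel (v f) (v a) (v b) := by
  simp only [rel, Str.rel, val_pair, val_mem, val_eq, val_imp, val_all, val_neg, val_an, val_ore, val_bi, val_ex, b0, b1, b2, b3, b4, s1, s2, s3, Fin.cons_zero, Fin.cons_succ]
theorem val_le (x y : Fin n) : val S (le x y) v = S.leCard (v x) (v y) := by
  simp only [le, Str.leCard, val_rel, val_mem, val_eq, val_imp, val_all, val_neg, val_an, val_ore, val_bi, val_ex, b0, b1, b2, b3, b4, s1, s2, s3, Fin.cons_zero, Fin.cons_succ]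
theorem val_tran (x : Fin n) : val S (tran x) v = S.isTrans (v x) := by
  simp only [tran, Str.isTrans, val_sub, val_mem, val_eq, val_imp, val_all, val_neg, val_an, val_ore, val_bi, val_ex, b0, b1, b2, b3, b4, s1, s2, s3, Fin.cons_zero, Fin.cons_succ]
theorem val_ord (x : Fin n) : val S (ord x) v = S.isOrd (v x) := by
  simp only [ord, Str.isOrd, val_tran, val_mem, val_eq, val_imp, val_all, val_neg, val_an, val_ore, val_bi, val_ex, b0, b1, b2, b3, b4, s1, s2, s3, Fin.cons_zero, Fin.cons_succ]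
theorem val_om (w : Fin n) : val S (om w) v = isOm S (v w) := by
  simp only [om, isOm, val_ord, val_empt, val_suc, val_mem, val_eq, val_imp, val_all, val_neg, val_an, val_ore, val_bi, val_ex, b0, b1, b2, b3, b4, s1, s2, s3, Fin.cons_zero, Fin.cons_succ]
theorem val_pow (p x : Fin n) : val S (pow p x) v = isPow S (v p) (v x) := by
  simp only [pow, isPow, val_sub, val_mem, val_eq, val_imp, val_all, val_neg, val_an, val_ore, val_bi, val_ex, b0, b1, b2, b3, b4, s1, s2, s3, Fin.cons_zero, Fin.cons_succ]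
theorem val_succ (m k : Fin n) : val S (succ m k) v = S.isSucc (v m) (v k) := by
  simp only [succ, Str.isSucc, val_ord, val_le, val_mem, val_eq, val_imp, val_all, val_neg, val_an, val_ore, val_bi, val_ex, b0, b1, b2, b3, b4, s1, s2, s3, Fin.cons_zero, Fin.cons_succ]
theorem val_preo (P r : Fin n) : val S (preo P r) v = isPreo S (v P) (v r) := by
  simp only [preo, isPreo, val_rel, val_mem, val_eq, val_imp, val_all, val_neg, val_an, val_ore, val_bi, val_ex, b0, b1, b2, b3, b4, s1, s2, s3, Fin.cons_zero, Fin.cons_succ]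
theorem val_cmp (P r p q : Fin n) : val S (cmp P r p q) v = comp S (v P) (v r) (v p) (v q) := by
  simp only [cmp, comp, val_rel, val_mem, val_eq, val_imp, val_all, val_neg, val_an, val_ore, val_bi, val_ex, b0, b1, b2, b3, b4, s1, s2, s3, Fin.cons_zero, Fin.cons_succ]
theorem val_ccc (P r : Fin n) : val S (ccc P r) v = isCCC S (v P) (v r) := by
  simp only [ccc, isCCC, val_sub, val_cmp, val_om, val_le, val_mem, val_eq, val_imp, val_all, val_neg, val_an, val_ore, val_bi, val_ex, b0, b1, b2, b3, b4, s1, s2, s3, Fin.cons_zero, Fin.cons_succ]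
theorem val_dense (P r D : Fin n) : val S (dense P r D) v = isDense S (v P) (v r) (v D) := by
  simp only [dense, isDense, val_sub, val_rel, val_mem, val_eq, val_imp, val_all, val_neg, val_an, val_ore, val_bi, val_ex, b0, b1, b2, b3, b4, s1, s2, s3, Fin.cons_zero, Fin.cons_succ]
theorem val_filt (P r G : Fin n) : val S (filt P r G) v = isFilt S (v P) (v r) (v G) := by
  simp only [filt, isFilt, val_sub, val_rel, val_mem, val_eq, val_imp, val_all, val_neg, val_an, val_ore, val_bi, val_ex, b0, b1, b2, b3, b4, s1, s2, s3, Fin.cons_zero, Fin.cons_succ]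
theorem val_inter (c a b : Fin n) : val S (inter c a b) v = isInter S (v c) (v a) (v b) := by
  simp only [inter, isInter, val_mem, val_eq, val_imp, val_all, val_neg, val_an, val_ore, val_bi, val_ex, b0, b1, b2, b3, b4, s1, s2, s3, Fin.cons_zero, Fin.cons_succ]
theorem val_diff (c x a : Fin n) : val S (diff c x a) v = isDiff S (v c) (v x) (v a) := by
  simp only [diff, isDiff, val_mem, val_eq, val_imp, val_all, val_neg, val_an, val_ore, val_bi, val_ex, b0, b1, b2, b3, b4, s1, s2, s3, Fin.cons_zero, Fin.cons_succ]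
theorem val_npu (w x : Fin n) : val S (npu w x) v = isNPU S (v w) (v x) := by
  simp only [npu, isNPU, val_sub, val_inter, val_diff, val_upair, val_mem, val_eq, val_imp, val_all, val_neg, val_an, val_ore, val_bi, val_ex, b0, b1, b2, b3, b4, s1, s2, s3, Fin.cons_zero, Fin.cons_succ]
theorem val_star (w O : Fin n) : val S (star w O) v = isStar S (v w) (v O) := by
  simp only [star, isStar, val_npu, val_mem, val_eq, val_imp, val_all, val_neg, val_an, val_ore, val_bi, val_ex, b0, b1, b2, b3, b4, s1, s2, s3, Fin.cons_zero, Fin.cons_succ]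
theorem val_nb (O a : Fin n) (φ : Fml (n + 1)) : val S (nb O a φ) v =
    nbhd S (v O) (v a) fun y => val S φ (Fin.cons y v) := by
  simp only [nb, nbhd, val_mem, val_eq, val_imp, val_all, val_neg, val_an, val_ore, val_bi, val_ex, b0, b1, b2, b3, b4, s1, s2, s3, Fin.cons_zero, Fin.cons_succ]
theorem val_opn (O G : Fin n) : val S (opn O G) v = isOpen S (v O) (v G) := by
  simp only [opn, isOpen, val_sub, val_nb, val_mem, val_eq, val_imp, val_all, val_neg, val_an, val_ore, val_bi, val_ex, b0, b1, b2, b3, b4, s1, s2, s3, Fin.cons_zero, Fin.cons_succ]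
theorem val_closed (O F : Fin n) : val S (closed O F) v = isClosed S (v O) (v F) := by
  simp only [closed, isClosed, val_sub, val_nb, val_mem, val_eq, val_imp, val_all, val_neg, val_an, val_ore, val_bi, val_ex, b0, b1, b2, b3, b4, s1, s2, s3, Fin.cons_zero, Fin.cons_succ]
theorem val_pset (w O F : Fin n) : val S (pset w O F) v = isPSet S (v w) (v O) (v F) := by
  simp only [pset, isPSet, val_closed, val_le, val_opn, val_sub, val_nb, val_mem, val_eq, val_imp, val_all, val_neg, val_an, val_ore, val_bi, val_ex, b0, b1, b2, b3, b4, s1, s2, s3, Fin.cons_zero, Fin.cons_succ]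
theorem val_nwd (O F : Fin n) : val S (nwd O F) v = isNwd S (v O) (v F) := by
  simp only [nwd, isNwd, val_mem, val_eq, val_imp, val_all, val_neg, val_an, val_ore, val_bi, val_ex, b0, b1, b2, b3, b4, s1, s2, s3, Fin.cons_zero, Fin.cons_succ]
theorem val_ch (v : Fin 0 → U) : val S ch v = CH S := by
  simp only [ch, CH, val_om, val_succ, val_pow, val_le, val_mem, val_eq, val_imp, val_all, val_neg, val_an, val_ore, val_bi, val_ex, b0, b1, b2, b3, b4, s1, s2, s3, Fin.cons_zero, Fin.cons_succ]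
theorem val_ma (v : Fin 0 → U) : val S ma v = MA S := by
  simp only [ma, MA, val_preo, val_ccc, val_dense, val_om, val_pow, val_le, val_filt, val_mem, val_eq, val_imp, val_all, val_neg, val_an, val_ore, val_bi, val_ex, b0, b1, b2, b3, b4, s1, s2, s3, Fin.cons_zero, Fin.cons_succ]
theorem val_cov (v : Fin 0 → U) : val S cov v = Cov S := by
  simp only [cov, Cov, val_om, val_star, val_pset, val_nwd, val_mem, val_eq, val_imp, val_all, val_neg, val_an, val_ore, val_bi, val_ex, b0, b1, b2, b3, b4, s1, s2, s3, Fin.cons_zero, Fin.cons_succ]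

/-! ## ZFC -/

def base : Fml 0 :=
  an (an (an (an (an (an (an (an (an (an
    (.all (.eq b0 b0))
    (.all (.all (.imp (.eq b1 b0) (.eq b0 b1)))))
    (.all (.all (.all (.imp (an (.eq b2 b1) (.eq b1 b0)) (.eq b2 b0))))))
    (.all (.all (.all (.all (.imp (an (an (.eq b3 b2) (.eq b1 b0)) (.mem b3 b1)) (.mem b2 b0)))))))
    (.all (.all (.imp (.all (bi (.mem b0 b2) (.mem b0 b1))) (.eq b1 b0)))))
    (.all (.imp (ex (.mem b0 b1)) (ex (an (.mem b0 b1) (.all (.imp (.mem b0 b2)
      (neg (.mem b0 b1)))))))))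
    (.all (.all (ex (upair b0 b2 b1)))))
    (.all (ex (.all (bi (.mem b0 b1) (ex (an (.mem b0 b3) (.mem b1 b0))))))))
    (.all (ex (pow b0 b1))))
    (ex (an (ex (an (.mem b0 b1) (empt b0))) (.all (.imp (.mem b0 b1)
      (ex (an (.mem b0 b2) (suc b0 b1))))))))
    (.all (.imp (an (.all (.imp (.mem b0 b1) (ex (.mem b0 b1))))
      (.all (.all (.all (.imp (an (an (an (.mem b2 b3) (.mem b1 b3)) (.mem b0 b2)) (.mem b0 b1))
        (.eq b2 b1))))))
      (ex (.all (.imp (.mem b0 b2) (ex (.all (bi (an (.mem b0 b3) (.mem b0 b2)) (.eq b0 b1)))))))))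

theorem val_base (v : Fin 0 → U) : val S base v = zfcBase S := by
  simp only [base, zfcBase, val_pow, val_empt, val_suc, val_upair, val_mem, val_eq, val_imp, val_all, val_neg, val_an, val_ore, val_bi, val_ex, b0, b1, b2, b3, b4, s1, s2, s3, Fin.cons_zero, Fin.cons_succ]

/-- An instance of the axiom schema of separation. -/
def sepa (φ : Fml (n + 1)) : Fml n :=
  .all (ex (.all (bi (.mem b0 b1) (an (.mem b0 b2)
    (ren (Fin.cons b0 fun i => i.succ.succ.succ) φ)))))

theorem val_sepa (φ : Fml (n + 1)) : val S (sepa φ) v = ⨅ x, ⨆ y, ⨅ z,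
    S.mem z y ⇔ (S.mem z x ⊓ val S φ (Fin.cons z v)) := by
  simp only [sepa, val_ren, val_mem, val_eq, val_imp, val_all, val_neg, val_an, val_ore, val_bi, val_ex, b0, b1, b2, b3, b4, s1, s2, s3, Fin.cons_zero, Fin.cons_succ]
  refine iInf_congr fun x => iSup_congr fun y => iInf_congr fun z => ?_
  congr 3
  funext i
  refine Fin.cases ?_ (fun i => ?_) i <;> rfl

/-- An instance of the axiom schema of replacement. -/
def repl (φ : Fml (n + 2)) : Fml n :=
  .all (.imp
    (.all (.imp (.mem b0 b1) (ex (.all (bi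
      (ren (Fin.cons b0 (Fin.cons b2 fun i => i.succ.succ.succ.succ)) φ) (.eq b0 b1))))))
    (ex (.all (bi (.mem b0 b1) (ex (an (.mem b0 b3)
      (ren (Fin.cons b1 (Fin.cons b0 fun i => i.succ.succ.succ.succ)) φ)))))))

theorem val_repl (φ : Fml (n + 2)) : val S (repl φ) v = ⨅ x,
    (⨅ s, S.mem s x ⇨ ⨆ t, ⨅ z, val S φ (Fin.cons z (Fin.cons s v)) ⇔ S.eq z t) ⇨
      ⨆ y, ⨅ z, S.mem z y ⇔ ⨆ s, S.mem s x ⊓ val S φ (Fin.cons z (Fin.cons s v)) := by
  simp only [repl, val_ren, val_mem, val_eq, val_imp, val_all, val_neg, val_an, val_ore, val_bi, val_ex, b0, b1, b2, b3, b4, s1, s2, s3, Fin.cons_zero, Fin.cons_succ]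
  refine iInf_congr fun x => ?_
  congr 1
  · refine iInf_congr fun s => ?_
    congr 1
    refine iSup_congr fun t => iInf_congr fun z => ?_
    congr 2
    funext i
    refine Fin.cases ?_ (fun i => Fin.cases ?_ (fun i => ?_) i) i <;> rfl
  · refine iSup_congr fun y => iInf_congr fun z => ?_
    congr 1
    refine iSup_congr fun s => ?_
    congr 2
    funext i
    refine Fin.cases ?_ (fun i => Fin.cases ?_ (fun i => ?_) i) i <;> rfl

theorem separation_eq : separation S = ⨅ n : ℕ, ⨅ φ : Fml (n + 1), ⨅ v : Fin n → U,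
    val S (sepa φ) v := by
  simp only [separation, val_sepa]

theorem replacement_eq : replacement S = ⨅ n : ℕ, ⨅ φ : Fml (n + 2), ⨅ v : Fin n → U,
    val S (repl φ) v := by
  simp only [replacement, val_repl]

end Fm

end Pool.Agent.Lib.MP_c5d73d_lc.F.H80
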